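import Pool.Agent.Y312.SQ.FinA
import Pool.Agent.H442R2.EHI.FinalOf

/-!
Final assembly of the mean value theorem for almost all squares: the sum over dyadic blocks.
-/

namespace Pool.Agent.Y312.SQ

open Finset Filter
open Pool.Agent.H442R2.EHI
open Pool.Agent.Y856.Sq

theorem t (hs : S_sm) (hk : S_tk) (hl : S_low) : S_fin := by
  classical
  intro ε U hε
  obtain ⟨x1, hb⟩ := blk hs hk ε hε (U + 2)
  obtain ⟨x2, hlow⟩ := hl (U + 2)
  have hev : ∀ᶠ x : ℕ in atTop, x1 ≤ x ∧ x2 ≤ x ∧ 3 ≤ x ∧ 100 ≤ Real.log x ∧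
      Real.log x ^ 1 ≤ (x : ℝ) ^ (1 / 50 : ℝ) := by
    filter_upwards [eventually_ge_atTop x1, eventually_ge_atTop x2, eventually_ge_atTop 3,
      evt_log_ge 100, evt_log_pow 1 (1 / 50) (by norm_num)] with x h1 h2 h3 h4 h5
    exact ⟨h1, h2, h3, h4, h5⟩
  obtain ⟨x0, hx0⟩ := eventually_atTop.mp hev
  refine ⟨x0, fun x hx c I0 I1 P hc hci hP => ?_⟩
  obtain ⟨hx1, hx2, hx3, hL, hL50⟩ := hx0 x hx
  rw [pow_one] at hL50
  set L := Real.log x with hLdef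
  have hL0 : 0 < L := by linarith
  have hL1 : 1 ≤ L := by linarith
  have hxr : (3:ℝ) ≤ x := by exact_mod_cast hx3
  have hx0' : (0:ℝ) < x := by linarith
  rcases le_or_gt I1 I0 with hII | hII
  · rw [Ioc_eq_empty (by omega), sum_empty]
    positivity
  have hI1 : I1 ^ 2 ≤ 2 * x := by
    have h1 := (hci I1 (by rw [mem_Ioc]; omega)).2
    have h2 : -(x:ℤ) ≤ c := by
      have := (abs_le.mp hc).1
      exact this
    have h3 : ((I1:ℤ)) ^ 2 ≤ 2 * x := by linarith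
    exact_mod_cast h3
  set D0 := ⌊(x : ℝ) ^ (18 / 25 : ℝ)⌋₊ with hD0
  have hD0le : (D0 : ℝ) ≤ (x : ℝ) ^ (18 / 25 : ℝ) := Nat.floor_le (by positivity)
  have hD0lt : (x : ℝ) ^ (18 / 25 : ℝ) < D0 + 1 := Nat.lt_floor_add_one _
  have hx1825 : (x : ℝ) ^ (18 / 25 : ℝ) = (x : ℝ) ^ (7 / 10 : ℝ) * (x : ℝ) ^ (1 / 50 : ℝ) := by
    rw [← Real.rpow_add hx0']; norm_num
  have hx710 : (1 : ℝ) ≤ (x : ℝ) ^ (7 / 10 : ℝ) := Real.one_le_rpow (by linarith) (by norm_num)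
  have hD0ge : (x : ℝ) ^ (7 / 10 : ℝ) ≤ D0 := by
    have h1 : (x : ℝ) ^ (7 / 10 : ℝ) * 100 ≤ (x : ℝ) ^ (7 / 10 : ℝ) * (x : ℝ) ^ (1 / 50 : ℝ) := by
      gcongr; linarith
    linarith
  have hD0one : 1 ≤ D0 := by
    have : (1 : ℝ) ≤ D0 := hx710.trans hD0ge
    exact_mod_cast this
  obtain ⟨J, hJ, hJ2⟩ : ∃ J : ℕ, (∀ j < J, 2 ^ j * D0 < P) ∧ ∀ a : ℕ,
      ∑ d ∈ (Icc 1 P).filter (fun d => a.Coprime d),
        |piAP x d a - lis x / (Nat.totient d : ℝ)| ≤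
      ∑ d ∈ (Icc 1 D0).filter (fun d => a.Coprime d),
        |piAP x d a - lis x / (Nat.totient d : ℝ)| +
      ∑ j ∈ range J, ∑ d ∈ (Ioc (2 ^ j * D0) (2 * (2 ^ j * D0))).filter
        (fun d => a.Coprime d), |piAP x d a - lis x / (Nat.totient d : ℝ)| := by
    have hex : ∃ J : ℕ, P ≤ 2 ^ J * D0 := by
      refine ⟨P, ?_⟩
      have h1 : P < 2 ^ P := Nat.lt_two_pow_self
      nlinarith
    refine ⟨Nat.find hex, fun j hj => ?_, fun a => ?_⟩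
    · have := Nat.find_min hex hj
      omega
    · simp only [sum_filter]
      rw [← FinalOf.dyad_eq]
      apply sum_le_sum_of_subset_of_nonneg
      · apply Icc_subset_Icc_right (Nat.find_spec hex)
      · intro d _ _
        split_ifs
        · exact abs_nonneg _
        · exact le_rfl
  have hsum : ∑ i ∈ Ioc I0 I1, ∑ d ∈ (Icc 1 P).filter
        (fun d => (c + (i : ℤ) ^ 2).toNat.Coprime d),
        |piAP x d (c + (i : ℤ) ^ 2).toNat - lis x / (Nat.totient d : ℝ)| ≤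
      ∑ i ∈ Ioc I0 I1, ∑ d ∈ (Icc 1 D0).filter (fun d => (c + (i : ℤ) ^ 2).toNat.Coprime d),
        |piAP x d (c + (i : ℤ) ^ 2).toNat - lis x / (Nat.totient d : ℝ)| +
      ∑ j ∈ range J, ∑ i ∈ Ioc I0 I1,
        ∑ d ∈ (Ioc (2 ^ j * D0) (2 * (2 ^ j * D0))).filter
        (fun d => (c + (i : ℤ) ^ 2).toNat.Coprime d),
        |piAP x d (c + (i : ℤ) ^ 2).toNat - lis x / (Nat.totient d : ℝ)| := by
    rw [sum_comm (s := range J), ← sum_add_distrib]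
    exact sum_le_sum fun i _ => hJ2 (c + (i : ℤ) ^ 2).toNat
  refine hsum.trans ?_
  have hlowb := hlow x hx2 c I0 I1 D0 hci hI1 hD0le
  have hcorb : ∀ j ∈ range J, ∑ i ∈ Ioc I0 I1,
        ∑ d ∈ (Ioc (2 ^ j * D0) (2 * (2 ^ j * D0))).filter
        (fun d => (c + (i : ℤ) ^ 2).toNat.Coprime d),
        |piAP x d (c + (i : ℤ) ^ 2).toNat - lis x / (Nat.totient d : ℝ)| ≤
      (x : ℝ) ^ (3 / 2 : ℝ) / L ^ (U + 2) := by
    intro j hj
    rw [mem_range] at hj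
    have hge0 : D0 ≤ 2 ^ j * D0 := Nat.le_mul_of_pos_left D0 (by positivity)
    have hge0r : (D0 : ℝ) ≤ ((2 ^ j * D0 : ℕ) : ℝ) := by exact_mod_cast hge0
    have h1 : ((2 ^ j * D0 : ℕ) : ℝ) ≤ P := by exact_mod_cast (hJ j hj).le
    exact hb x hx1 c I0 I1 (2 ^ j * D0) hc hII.le hI1 hci (hD0ge.trans hge0r) (h1.trans hP)
  -- number of dyadic parts
  have hPx : ((x : ℝ) ^ (1 - ε)) ≤ x := by
    calc (x : ℝ) ^ (1 - ε) ≤ (x : ℝ) ^ (1 : ℝ) :=
          Real.rpow_le_rpow_of_exponent_le (by linarith) (by linarith)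
      _ = x := Real.rpow_one _
  have hJle : (J : ℝ) + 1 ≤ L ^ 2 := by
    rcases Nat.eq_zero_or_pos J with h0 | hpos
    · rw [h0]
      push_cast
      nlinarith
    · have h1 := hJ (J - 1) (by omega)
      have h2 : 2 ^ (J - 1) ≤ P := by
        have : 2 ^ (J - 1) ≤ 2 ^ (J - 1) * D0 := Nat.le_mul_of_pos_right _ (by omega)
        omega
      have h3 : ((2 : ℝ) ^ (J - 1)) ≤ x := by
        have : ((2 : ℝ) ^ (J - 1)) ≤ P := by exact_mod_cast h2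
        linarith
      have h4 : ((J - 1 : ℕ) : ℝ) * Real.log 2 ≤ L := by
        have := Real.log_le_log (by positivity) h3
        rwa [Real.log_pow] at this
      have h5 : ((J - 1 : ℕ) : ℝ) = J - 1 := by
        rw [Nat.cast_sub (by omega)]; simp
      rw [h5] at h4
      have hlog2 := Real.log_two_gt_d9
      have h6 : (1 : ℝ) ≤ J := by exact_mod_cast hpos
      have h7 : ((J : ℝ) - 1) * 0.69 ≤ L := by nlinarith
      nlinarith
  have hfin := sum_le_sum hcorb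
  rw [sum_const, card_range, nsmul_eq_mul] at hfin
  have hpos : 0 ≤ (x : ℝ) ^ (3 / 2 : ℝ) / L ^ (U + 2) := by positivity
  calc _ ≤ (x : ℝ) ^ (3 / 2 : ℝ) / L ^ (U + 2) + J * ((x : ℝ) ^ (3 / 2 : ℝ) / L ^ (U + 2)) :=
        add_le_add hlowb hfin
    _ = ((J : ℝ) + 1) * ((x : ℝ) ^ (3 / 2 : ℝ) / L ^ (U + 2)) := by ring
    _ ≤ L ^ 2 * ((x : ℝ) ^ (3 / 2 : ℝ) / L ^ (U + 2)) := mul_le_mul_of_nonneg_right hJle hpos
    _ = (x : ℝ) ^ (3 / 2 : ℝ) / L ^ U := by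
        rw [pow_add]
        field_simp

end Pool.Agent.Y312.SQ
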