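import Pool.Agent.Y856.Sq.Stm
import Pool.Agent.H442R2.EHI.Core3
import Pool.Agent.H442R2.EHI.Model

/-!
Final assembly of the mean value theorem for almost all squares: the pointwise decomposition
and one dyadic block.
-/

namespace Pool.Agent.Y312.SQ

open Finset Filter
open Pool.Agent.H442R2.EHI
open Pool.Agent.Y856.Sq

/-- pointwise decomposition, the small quotients kept as a sum of norms -/
lemma disc2 (x Q D d a : ℕ) (ha1 : 1 ≤ a) (ha : a ≤ x) (hD : 1 ≤ D) (hd : D < d) (K1 : ℕ)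
    (hK1 : K1 ≤ x / D) :
    |piAP x d a - lis x / (Nat.totient d : ℝ)| ≤
      ‖(∑ n ∈ (Icc 2 x).filter (fun n => n ≡ a [MOD d]), gg Q n / (Real.log n : ℂ)) -
        ((lis x / (Nat.totient d : ℝ) : ℝ) : ℂ)‖ + (1 + 2 * (Q : ℝ) ^ 2) +
      ∑ k ∈ Icc 1 K1, ‖ffz x Q ((a : ℤ) + (1 : ℤ) * d * k)‖ +
      ∑ k ∈ Icc 1 K1, ‖ffz x Q ((a : ℤ) + (-1 : ℤ) * d * k)‖ +
      ‖∑ k ∈ Ioc K1 (x / D), ffz x Q ((a : ℤ) + (1 : ℤ) * d * k)‖ +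
      ‖∑ k ∈ Ioc K1 (x / D), ffz x Q ((a : ℤ) + (-1 : ℤ) * d * k)‖ := by
  classical
  have h1 : ((piAP x d a : ℝ) : ℂ) = ∑ n ∈ (Icc 2 x).filter (fun n => n ≡ a [MOD d]), ff x Q n +
      ∑ n ∈ (Icc 2 x).filter (fun n => n ≡ a [MOD d]), gg Q n / (Real.log n : ℂ) := by
    rw [← sum_add_distrib]
    have h2 : ∀ n ∈ (Icc 2 x).filter (fun n => n ≡ a [MOD d]),
        ff x Q n + gg Q n / (Real.log n : ℂ) = if n.Prime then 1 else 0 := by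
      intro n hn
      rw [mem_filter, mem_Icc] at hn
      unfold ff
      rw [if_pos hn.1]
      ring
    rw [sum_congr rfl h2, ← sum_filter, sum_const, nsmul_eq_mul, mul_one, filter_filter]
    unfold piAP
    push_cast
    congr 2
    ext n
    simp only [mem_filter, mem_Icc]
    constructor
    · rintro ⟨⟨h3, h4⟩, h5, h6⟩
      exact ⟨⟨h5.two_le, h4⟩, h6, h5⟩
    · rintro ⟨⟨h3, h4⟩, h5, h6⟩
      exact ⟨⟨by omega, h4⟩, h6, h5⟩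
  have h2 : |piAP x d a - lis x / (Nat.totient d : ℝ)| =
      ‖((piAP x d a : ℝ) : ℂ) - ((lis x / (Nat.totient d : ℝ) : ℝ) : ℂ)‖ := by
    rw [← Complex.ofReal_sub, Complex.norm_real, Real.norm_eq_abs]
  rw [h2, h1, ap_sum x Q D d a ha1 ha hD hd]
  have hsplit : ∀ σ : ℤ, ∑ k ∈ Icc 1 (x / D), ffz x Q ((a : ℤ) + σ * d * k) =
      ∑ k ∈ Icc 1 K1, ffz x Q ((a : ℤ) + σ * d * k) +
      ∑ k ∈ Ioc K1 (x / D), ffz x Q ((a : ℤ) + σ * d * k) := by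
    intro σ
    rw [← sum_union]
    · congr 1
      ext k
      simp only [mem_union, mem_Icc, mem_Ioc]
      omega
    · rw [disjoint_left]
      intro k hk hk2
      rw [mem_Icc] at hk; rw [mem_Ioc] at hk2; omega
  rw [hsplit 1, hsplit (-1)]
  have h3 : ‖∑ k ∈ Icc 1 K1, ffz x Q ((a : ℤ) + (1 : ℤ) * d * k)‖ ≤
      ∑ k ∈ Icc 1 K1, ‖ffz x Q ((a : ℤ) + (1 : ℤ) * d * k)‖ := norm_sum_le _ _
  have h4 : ‖∑ k ∈ Icc 1 K1, ffz x Q ((a : ℤ) + (-1 : ℤ) * d * k)‖ ≤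
      ∑ k ∈ Icc 1 K1, ‖ffz x Q ((a : ℤ) + (-1 : ℤ) * d * k)‖ := norm_sum_le _ _
  have h5 := ffz_bound x Q (a : ℤ)
  set G := ∑ n ∈ (Icc 2 x).filter (fun n => n ≡ a [MOD d]), gg Q n / (Real.log n : ℂ)
  set M : ℂ := ((lis x / (Nat.totient d : ℝ) : ℝ) : ℂ)
  set z0 := ffz x Q (a : ℤ)
  set z1 := ∑ k ∈ Icc 1 K1, ffz x Q ((a : ℤ) + 1 * d * k)
  set z2 := ∑ k ∈ Ioc K1 (x / D), ffz x Q ((a : ℤ) + 1 * d * k)
  set z3 := ∑ k ∈ Icc 1 K1, ffz x Q ((a : ℤ) + (-1) * d * k)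
  set z4 := ∑ k ∈ Ioc K1 (x / D), ffz x Q ((a : ℤ) + (-1) * d * k)
  have h6 : z0 + (z1 + z2) + (z3 + z4) + G - M = (G - M) + z0 + z1 + z3 + z2 + z4 := by ring
  rw [h6]
  have t1 := norm_add_le ((G - M) + z0 + z1 + z3 + z2) z4
  have t2 := norm_add_le ((G - M) + z0 + z1 + z3) z2
  have t3 := norm_add_le ((G - M) + z0 + z1) z3
  have t4 := norm_add_le ((G - M) + z0) z1
  have t5 := norm_add_le (G - M) z0
  linarith

/-- one dyadic block -/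
theorem blk (hs : S_sm) (hk : S_tk) (ε : ℝ) (hε : 0 < ε) (W : ℕ) : ∃ x0 : ℕ, ∀ x : ℕ, x0 ≤ x →
    ∀ (c : ℤ) (I0 I1 D : ℕ), |c| ≤ x → I0 ≤ I1 → I1 ^ 2 ≤ 2 * x →
    (∀ i ∈ Ioc I0 I1, 1 ≤ c + (i : ℤ) ^ 2 ∧ c + (i : ℤ) ^ 2 ≤ x) →
    (x : ℝ) ^ (7 / 10 : ℝ) ≤ D → (D : ℝ) ≤ (x : ℝ) ^ (1 - ε) →
    ∑ i ∈ Ioc I0 I1, ∑ d ∈ (Ioc D (2 * D)).filter (fun d => (c + (i : ℤ) ^ 2).toNat.Coprime d),
      |piAP x d (c + (i : ℤ) ^ 2).toNat - lis x / (Nat.totient d : ℝ)| ≤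
      (x : ℝ) ^ (3 / 2 : ℝ) / Real.log x ^ W := by
  classical
  obtain ⟨c1, hk⟩ := hk
  obtain ⟨W1, hW1⟩ : ∃ W1 : ℕ, W1 = W + 1 := ⟨_, rfl⟩
  obtain ⟨F, hF⟩ : ∃ F : ℕ, F = 2 * (c1 + W1) := ⟨_, rfl⟩
  obtain ⟨E0, hs⟩ := hs (ε / 2) (2 * W1) (F + 1) (by linarith)
  obtain ⟨E1, hE1⟩ : ∃ E1 : ℕ, E1 = max E0 (W1 + 3) := ⟨_, rfl⟩
  have hE01 : E0 ≤ E1 := by rw [hE1]; exact le_max_left _ _
  have hWE1 : W1 + 3 ≤ E1 := by rw [hE1]; exact le_max_right _ _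
  clear hE1
  obtain ⟨x1, hs⟩ := hs E1 hE01
  obtain ⟨x2, hk⟩ := hk E1
  obtain ⟨C, hC⟩ := model
  have hev : ∀ᶠ x : ℕ in atTop, x1 ≤ x ∧ x2 ≤ x ∧ 3 ≤ x ∧ 100 ≤ Real.log x ∧
      20 * |C| ≤ Real.log x ∧
      Real.log x ^ (5 * E1 + W1 + 2) ≤ (x : ℝ) ^ ε ∧
      Real.log x ^ (F + E1 + 1) ≤ (x : ℝ) ^ (ε / 2) ∧
      Real.log x ^ (W1 + 4) ≤ (x : ℝ) ^ (7 / 10 : ℝ) ∧ (4:ℝ) ≤ (x : ℝ) ^ (1 / 2 : ℝ) := by
    filter_upwards [eventually_ge_atTop x1, eventually_ge_atTop x2, eventually_ge_atTop 3,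
      evt_log_ge 100,
      evt_log_ge (20 * |C|), evt_log_pow (5 * E1 + W1 + 2) ε hε, evt_log_pow (F + E1 + 1) (ε / 2)
      (by linarith), evt_log_pow (W1 + 4) (7 / 10) (by norm_num), eventually_ge_atTop 16] with
      x h1 h1' h2 h3 h4 h5 h6 h7 h8
    refine ⟨h1, h1', h2, h3, h4, h5, h6, h7, ?_⟩
    have : (16:ℝ) ≤ x := by exact_mod_cast h8
    calc (4:ℝ) = (16:ℝ) ^ (1 / 2 : ℝ) := by
          rw [show (16:ℝ) = 4 ^ (2:ℝ) by norm_num, ← Real.rpow_mul (by norm_num)]; norm_num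
      _ ≤ _ := by gcongr
  obtain ⟨x0, hx0⟩ := eventually_atTop.mp hev
  refine ⟨x0, fun x hx c I0 I1 D hc hI hI1 hci hD hDε => ?_⟩
  obtain ⟨hx1, hx2, hx3, hL, hCL, hLε, hLε2, hLhalf, h4⟩ := hx0 x hx
  set L := Real.log x with hLdef
  have hL0 : 0 < L := by linarith
  have hL1 : 1 ≤ L := by linarith
  have hxr : (3:ℝ) ≤ x := by exact_mod_cast hx3
  have hx0' : (0:ℝ) < x := by linarith
  -- `Q`
  set Q := ⌊L ^ E1⌋₊ with hQ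
  have hLE1 : (1:ℝ) ≤ L ^ E1 := one_le_pow₀ hL1
  have hQle : (Q:ℝ) ≤ L ^ E1 := Nat.floor_le (by positivity)
  have hQ1 : 1 ≤ Q := Nat.le_floor (by simpa using hLE1)
  have hQr : (1:ℝ) ≤ Q := by exact_mod_cast hQ1
  have hQge : L ^ E1 ≤ 2 * Q := by
    have := Nat.lt_floor_add_one (L ^ E1)
    rw [← hQ] at this
    linarith
  -- `K`, `K1`
  have hxhalf' : (x:ℝ) ^ (1 / 2 : ℝ) ≤ (x:ℝ) ^ (7 / 10 : ℝ) :=
    Real.rpow_le_rpow_of_exponent_le (by linarith) (by norm_num)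
  have hDr : (4:ℝ) ≤ D := h4.trans (hxhalf'.trans hD)
  have hD4 : 4 ≤ D := by exact_mod_cast hDr
  set K := x / D with hKdef
  have hDK : D * K ≤ x := Nat.mul_div_le x D
  have hDK' : (D:ℝ) * K ≤ x := by exact_mod_cast hDK
  have hKreal : (x:ℝ) / D < K + 1 := by
    rw [div_lt_iff₀ (by linarith)]
    have := Nat.lt_mul_div_succ x (show 0 < D by omega)
    have h2 : (x:ℝ) < D * (K + 1) := by exact_mod_cast this
    linarith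
  have hxε : (x:ℝ) ^ ε ≤ x / D := by
    rw [le_div_iff₀ (by linarith)]
    calc (x:ℝ) ^ ε * D ≤ (x:ℝ) ^ ε * (x:ℝ) ^ (1 - ε) := by gcongr
      _ = x := by rw [← Real.rpow_add hx0']; simp
  have hxhalf : (100:ℝ) ≤ (x:ℝ) ^ (ε / 2) := by
    refine le_trans ?_ hLε2
    calc (100:ℝ) ≤ L := hL
      _ = L ^ 1 := (pow_one L).symm
      _ ≤ L ^ (F + E1 + 1) := pow_le_pow_right₀ hL1 (by omega)
  have hKε : (x:ℝ) ^ (ε / 2) ≤ K := by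
    have h1 : (x:ℝ) ^ ε = (x:ℝ) ^ (ε / 2) * (x:ℝ) ^ (ε / 2) := by
      rw [← Real.rpow_add hx0']; congr 1; ring
    nlinarith
  have hK310 : (K:ℝ) ≤ (x:ℝ) ^ (3 / 10 : ℝ) := by
    have h1 : (x:ℝ) ^ (3 / 10 : ℝ) * (x:ℝ) ^ (7 / 10 : ℝ) = x := by
      rw [← Real.rpow_add hx0']; norm_num
    have h2 : (0:ℝ) < (x:ℝ) ^ (7 / 10 : ℝ) := by positivity
    have h3 : (x:ℝ) ^ (7 / 10 : ℝ) * K ≤ (x:ℝ) ^ (7 / 10 : ℝ) * (x:ℝ) ^ (3 / 10 : ℝ) := by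
      calc (x:ℝ) ^ (7 / 10 : ℝ) * K ≤ D * K := by gcongr
        _ ≤ x := hDK'
        _ = (x:ℝ) ^ (7 / 10 : ℝ) * (x:ℝ) ^ (3 / 10 : ℝ) := by
            rw [mul_comm]; exact h1.symm
    exact le_of_mul_le_mul_left h3 h2
  set K1 := ⌊(K:ℝ) / L ^ F⌋₊ with hK1
  have hLE2 : (1:ℝ) ≤ L ^ F := one_le_pow₀ hL1
  have hK1le : (K1:ℝ) ≤ K / L ^ F := Nat.floor_le (by positivity)
  have hK1K : K1 ≤ K := by
    have : (K1:ℝ) ≤ K := hK1le.trans (div_le_self (by positivity) hLE2)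
    exact_mod_cast this
  have hKK1 : (K:ℝ) ≤ K1 * L ^ (F + 1) := by
    have h1 : (K:ℝ) / L ^ F < K1 + 1 := Nat.lt_floor_add_one _
    have h2 : L ≤ (K:ℝ) / L ^ F := by
      rw [le_div_iff₀ (by positivity)]
      calc L * L ^ F = L ^ (F + 1) := by ring
        _ ≤ L ^ (F + E1 + 1) := pow_le_pow_right₀ hL1 (by omega)
        _ ≤ _ := hLε2.trans hKε
    have h3 : (K:ℝ) / L ^ F ≤ K1 * L := by nlinarith
    calc (K:ℝ) = (K / L ^ F) * L ^ F := by field_simp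
      _ ≤ (K1 * L) * L ^ F := by gcongr
      _ = _ := by ring
  -- the square root of `x`
  set s : ℝ := √(x : ℝ) with hsdef
  have hs0 : 0 < s := Real.sqrt_pos.mpr hx0'
  have hss : s * s = x := Real.mul_self_sqrt hx0'.le
  have hx32 : (x:ℝ) ^ (3 / 2 : ℝ) = x * s := by
    rw [hsdef, Real.sqrt_eq_rpow, show (3 / 2 : ℝ) = 1 + 1 / 2 by norm_num,
      Real.rpow_add hx0', Real.rpow_one]
  -- the number of `i`
  obtain ⟨J, hJ⟩ : ∃ J : ℕ, J = (Ioc I0 I1).card := ⟨_, rfl⟩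
  have hJI : J ≤ I1 := by rw [hJ, Nat.card_Ioc]; omega
  have hJs : (J:ℝ) ≤ 2 * s := by
    have h1 : ((J:ℝ)) ^ 2 ≤ (2 * s) ^ 2 := by
      have h2 : (J:ℝ) ^ 2 ≤ (I1:ℝ) ^ 2 := by gcongr
      have h3 : (I1:ℝ) ^ 2 ≤ 2 * x := by exact_mod_cast hI1
      nlinarith
    exact le_of_sq_le_sq h1 (by positivity)
  have hJ0 : (0:ℝ) ≤ J := Nat.cast_nonneg _
  -- the numbers `a_i`
  have hai : ∀ i ∈ Ioc I0 I1, 1 ≤ (c + (i : ℤ) ^ 2).toNat ∧ (c + (i : ℤ) ^ 2).toNat ≤ x ∧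
      (((c + (i : ℤ) ^ 2).toNat : ℕ) : ℤ) = c + (i : ℤ) ^ 2 := by
    intro i hi
    have := hci i hi
    refine ⟨by omega, by omega, by omega⟩
  have hsm1 := hs x hx1 Q K1 K D I0 I1 c 1 hQle hQge hKε hK310 hK1K hKK1 hI hI1 hc hci (Or.inl rfl)
  have hsm2 := hs x hx1 Q K1 K D I0 I1 c (-1) hQle hQge hKε hK310 hK1K hKK1 hI hI1 hc hci
    (Or.inr rfl)
  -- L1 from L2
  have hL2 : ∀ σ : ℤ, ∑ i ∈ Ioc I0 I1, ∑ d ∈ Ioc D (2 * D),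
      ‖∑ k ∈ Ioc K1 K, ffz x Q (c + (i : ℤ) ^ 2 + σ * d * k)‖ ^ 2 ≤
        (x : ℝ) ^ (3 / 2 : ℝ) * K / L ^ (2 * W1) →
      ∑ i ∈ Ioc I0 I1, ∑ d ∈ Ioc D (2 * D),
      ‖∑ k ∈ Ioc K1 K, ffz x Q (c + (i : ℤ) ^ 2 + σ * d * k)‖ ≤ 2 * (x * s / L ^ W1) := by
    intro σ h
    rw [hx32] at h
    rw [← sum_product'] at h ⊢
    apply sum_le_of_sq _ _ _ (by positivity)
    rw [card_product, Nat.card_Ioc D]
    have hcard : (((Ioc I0 I1).card * (2 * D - D) : ℕ) : ℝ) = J * D := by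
      rw [← hJ, show 2 * D - D = D by omega]; push_cast; ring
    rw [hcard]
    calc (J:ℝ) * D * _ ≤ J * D * (x * s * K / L ^ (2 * W1)) := by gcongr
      _ = (J * (D * K)) * (x * s) / L ^ (2 * W1) := by ring
      _ ≤ (2 * s * x) * (x * s) / L ^ (2 * W1) := by gcongr
      _ = 2 * (x * s) ^ 2 / L ^ (2 * W1) := by ring
      _ ≤ 4 * (x * s) ^ 2 / L ^ (2 * W1) := by
          gcongr; norm_num
      _ = (2 * (x * s / L ^ W1)) ^ 2 := by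
          rw [show L ^ (2 * W1) = L ^ W1 * L ^ W1 by rw [← pow_add]; congr 1; ring]
          ring
  have hM1 := hL2 1 hsm1
  have hM2 := hL2 (-1) hsm2
  -- small quotients
  have hsmall : ∀ i ∈ Ioc I0 I1, ∀ σ : ℤ, (σ = 1 ∨ σ = -1) → ∑ d ∈ Ioc D (2 * D),
      ∑ k ∈ Icc 1 K1, ‖ffz x Q (c + (i : ℤ) ^ 2 + σ * d * k)‖ ≤ x / L ^ W1 := by
    intro i hi σ hσ
    have h1 := hci i hi
    have h2 := hk x hx2 Q D K1 hQle (c + (i : ℤ) ^ 2) (by rw [abs_of_nonneg (by omega)]; omega) σ hσ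
    refine h2.trans ?_
    have h3 : (D:ℝ) * K1 ≤ x / L ^ F := by
      calc (D:ℝ) * K1 ≤ D * (K / L ^ F) := by gcongr
        _ = (D * K) / L ^ F := by ring
        _ ≤ _ := by gcongr
    have h4 : √((D:ℝ) * K1) ≤ s / L ^ (c1 + W1) := by
      rw [Real.sqrt_le_left (by positivity), div_pow, ← pow_mul]
      refine h3.trans (le_of_eq ?_)
      rw [hF, mul_comm (c1 + W1) 2, pow_two, hss]
    calc √((D:ℝ) * K1) * √(x:ℝ) * L ^ c1 ≤ (s / L ^ (c1 + W1)) * s * L ^ c1 := by gcongr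
      _ = (s * s) / L ^ W1 := by rw [pow_add]; field_simp
      _ = x / L ^ W1 := by rw [hss]
  -- pointwise
  have hpt : ∀ i ∈ Ioc I0 I1, ∀ d ∈ (Ioc D (2 * D)).filter
      (fun d => (c + (i : ℤ) ^ 2).toNat.Coprime d),
      |piAP x d (c + (i : ℤ) ^ 2).toNat - lis x / (Nat.totient d : ℝ)| ≤
      ‖(∑ n ∈ (Icc 2 x).filter (fun n => n ≡ (c + (i : ℤ) ^ 2).toNat [MOD d]),
          gg Q n / (Real.log n : ℂ)) - ((lis x / (Nat.totient d : ℝ) : ℝ) : ℂ)‖ +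
      ((1 + 2 * (Q : ℝ) ^ 2) +
      ∑ k ∈ Icc 1 K1, ‖ffz x Q (c + (i : ℤ) ^ 2 + (1 : ℤ) * d * k)‖ +
      ∑ k ∈ Icc 1 K1, ‖ffz x Q (c + (i : ℤ) ^ 2 + (-1 : ℤ) * d * k)‖ +
      ‖∑ k ∈ Ioc K1 K, ffz x Q (c + (i : ℤ) ^ 2 + (1 : ℤ) * d * k)‖ +
      ‖∑ k ∈ Ioc K1 K, ffz x Q (c + (i : ℤ) ^ 2 + (-1 : ℤ) * d * k)‖) := by
    intro i hi d hd
    rw [mem_filter, mem_Ioc] at hd
    obtain ⟨h1, h2, h3⟩ := hai i hi
    have := disc2 x Q D d (c + (i : ℤ) ^ 2).toNat h1 h2 (by omega) hd.1.1 K1 hK1K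
    rw [h3] at this
    linarith
  have hmodel : ∀ i ∈ Ioc I0 I1, ∑ d ∈ (Ioc D (2 * D)).filter
      (fun d => (c + (i : ℤ) ^ 2).toNat.Coprime d),
      ‖(∑ n ∈ (Icc 2 x).filter (fun n => n ≡ (c + (i : ℤ) ^ 2).toNat [MOD d]),
          gg Q n / (Real.log n : ℂ)) - ((lis x / (Nat.totient d : ℝ) : ℝ) : ℂ)‖ ≤ x / L ^ W1 := by
    intro i _
    refine (hC x Q D (c + (i : ℤ) ^ 2).toNat (by omega) hQ1 (by omega)).trans ?_
    have hlogQ : 1 + Real.log Q ≤ 2 * L := by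
      have hQx : (Q:ℝ) ≤ x := by
        refine hQle.trans ?_
        calc L ^ E1 ≤ L ^ (F + E1 + 1) := pow_le_pow_right₀ hL1 (by omega)
          _ ≤ (x:ℝ) ^ (ε / 2) := hLε2
          _ ≤ K := hKε
          _ ≤ x := by exact_mod_cast Nat.div_le_self x D
      have := Real.log_le_log (by linarith) hQx
      linarith
    have hlogD : 1 + Real.log D ≤ 2 * L := by
      have hDx : (D:ℝ) ≤ x := by
        have : (1:ℝ) ≤ K := by linarith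
        nlinarith
      have := Real.log_le_log (by linarith) hDx
      linarith
    have hlogQ0 : 0 ≤ Real.log Q := Real.log_nonneg hQr
    have hlogD0 : 0 ≤ Real.log D := Real.log_nonneg (by linarith)
    have p1 : (x:ℝ) * (1 + Real.log Q) ^ 2 / Q ≤ 8 * (x / L ^ (W1 + 1)) := by
      calc (x:ℝ) * (1 + Real.log Q) ^ 2 / Q ≤ x * (2 * L) ^ 2 / (L ^ E1 / 2) := by
            gcongr; linarith
        _ = 8 * x * L ^ 2 / L ^ E1 := by field_simp; norm_num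
        _ ≤ 8 * x * L ^ 2 / L ^ (W1 + 3) := by
            gcongr
        _ = 8 * (x / L ^ (W1 + 1)) := by
            rw [show W1 + 3 = (W1 + 1) + 2 by ring, pow_add]; field_simp
    have p2 : (x:ℝ) * (1 + Real.log D) ^ 2 / D ≤ 8 * (x / L ^ (W1 + 1)) := by
      calc (x:ℝ) * (1 + Real.log D) ^ 2 / D ≤ x * (2 * L) ^ 2 / L ^ (W1 + 4) := by
            gcongr; exact hLhalf.trans hD
        _ = 4 * (x / (L ^ (W1 + 1) * L)) := by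
            rw [show W1 + 4 = (W1 + 1) + 3 by ring, pow_add]; field_simp; ring
        _ ≤ 8 * (x / L ^ (W1 + 1)) := by
            have h1 : (x:ℝ) / (L ^ (W1 + 1) * L) ≤ x / L ^ (W1 + 1) := by
              apply div_le_div_of_nonneg_left hx0'.le (by positivity)
              nlinarith [show 0 < L ^ (W1 + 1) by positivity]
            have h2 : 0 ≤ (x:ℝ) / L ^ (W1 + 1) := by positivity
            linarith
    have p3 : (D:ℝ) * (Q:ℝ) ^ 5 ≤ x / L ^ (W1 + 1) := by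
      rw [le_div_iff₀ (by positivity)]
      calc (D:ℝ) * (Q:ℝ) ^ 5 * L ^ (W1 + 1) ≤ (x:ℝ) ^ (1 - ε) * (L ^ E1) ^ 5 * L ^ (W1 + 1) := by
            gcongr
        _ = (x:ℝ) ^ (1 - ε) * L ^ (5 * E1 + W1 + 1) := by
            rw [← pow_mul, mul_assoc, ← pow_add]; congr 2; ring
        _ ≤ (x:ℝ) ^ (1 - ε) * (x:ℝ) ^ ε := by
            gcongr
            exact (pow_le_pow_right₀ hL1 (by omega)).trans hLε
        _ = x := by rw [← Real.rpow_add hx0']; simp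
    have hy : 0 ≤ (x:ℝ) / L ^ (W1 + 1) := by positivity
    calc C * (x * (1 + Real.log Q) ^ 2 / Q + x * (1 + Real.log D) ^ 2 / D + D * (Q : ℝ) ^ 5)
        ≤ |C| * (8 * (x / L ^ (W1 + 1)) + 8 * (x / L ^ (W1 + 1)) + x / L ^ (W1 + 1)) := by
          apply mul_le_mul (le_abs_self C) _ (by positivity) (abs_nonneg C)
          gcongr
      _ = (17 * |C|) * (x / L ^ (W1 + 1)) := by ring
      _ ≤ L * (x / L ^ (W1 + 1)) := by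
          gcongr
          have := abs_nonneg C
          linarith
      _ = x / L ^ W1 := by rw [pow_succ]; field_simp
  have hconst : (D:ℝ) * (1 + 2 * (Q : ℝ) ^ 2) ≤ 3 * (x / L ^ W1) := by
    have hQ2 : 1 + 2 * (Q:ℝ) ^ 2 ≤ 3 * L ^ (2 * E1) := by
      have h1 : (Q:ℝ) ^ 2 ≤ L ^ (2 * E1) := by
        calc (Q:ℝ) ^ 2 ≤ (L ^ E1) ^ 2 := by gcongr
          _ = _ := by rw [← pow_mul]; congr 1; ring
      have h2 : (1:ℝ) ≤ L ^ (2 * E1) := one_le_pow₀ hL1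
      linarith
    have q1 : (D:ℝ) * L ^ (2 * E1) ≤ x / L ^ W1 := by
      rw [le_div_iff₀ (by positivity)]
      calc (D:ℝ) * L ^ (2 * E1) * L ^ W1 = D * L ^ (2 * E1 + W1) := by rw [mul_assoc, ← pow_add]
        _ ≤ (x:ℝ) ^ (1 - ε) * (x:ℝ) ^ ε := by
            gcongr
            exact (pow_le_pow_right₀ hL1 (by omega)).trans hLε
        _ = x := by rw [← Real.rpow_add hx0']; simp
    calc (D:ℝ) * (1 + 2 * (Q : ℝ) ^ 2) ≤ D * (3 * L ^ (2 * E1)) := by gcongr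
      _ = 3 * (D * L ^ (2 * E1)) := by ring
      _ ≤ _ := by gcongr
  have hper : ∀ i ∈ Ioc I0 I1, ∑ d ∈ (Ioc D (2 * D)).filter
      (fun d => (c + (i : ℤ) ^ 2).toNat.Coprime d),
      |piAP x d (c + (i : ℤ) ^ 2).toNat - lis x / (Nat.totient d : ℝ)| ≤
      6 * (x / L ^ W1) +
      ∑ d ∈ Ioc D (2 * D), ‖∑ k ∈ Ioc K1 K, ffz x Q (c + (i : ℤ) ^ 2 + (1 : ℤ) * d * k)‖ +
      ∑ d ∈ Ioc D (2 * D), ‖∑ k ∈ Ioc K1 K, ffz x Q (c + (i : ℤ) ^ 2 + (-1 : ℤ) * d * k)‖ := by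
    intro i hi
    refine (sum_le_sum fun d hd => hpt i hi d hd).trans ?_
    rw [sum_add_distrib]
    have h1 := hmodel i hi
    have h2 := hsmall i hi 1 (Or.inl rfl)
    have h3 := hsmall i hi (-1) (Or.inr rfl)
    have h5 : ∑ d ∈ (Ioc D (2 * D)).filter (fun d => (c + (i : ℤ) ^ 2).toNat.Coprime d),
      ((1 + 2 * (Q : ℝ) ^ 2) +
      ∑ k ∈ Icc 1 K1, ‖ffz x Q (c + (i : ℤ) ^ 2 + (1 : ℤ) * d * k)‖ +
      ∑ k ∈ Icc 1 K1, ‖ffz x Q (c + (i : ℤ) ^ 2 + (-1 : ℤ) * d * k)‖ +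
      ‖∑ k ∈ Ioc K1 K, ffz x Q (c + (i : ℤ) ^ 2 + (1 : ℤ) * d * k)‖ +
      ‖∑ k ∈ Ioc K1 K, ffz x Q (c + (i : ℤ) ^ 2 + (-1 : ℤ) * d * k)‖) ≤
      ∑ d ∈ Ioc D (2 * D), ((1 + 2 * (Q : ℝ) ^ 2) +
      ∑ k ∈ Icc 1 K1, ‖ffz x Q (c + (i : ℤ) ^ 2 + (1 : ℤ) * d * k)‖ +
      ∑ k ∈ Icc 1 K1, ‖ffz x Q (c + (i : ℤ) ^ 2 + (-1 : ℤ) * d * k)‖ +
      ‖∑ k ∈ Ioc K1 K, ffz x Q (c + (i : ℤ) ^ 2 + (1 : ℤ) * d * k)‖ +
      ‖∑ k ∈ Ioc K1 K, ffz x Q (c + (i : ℤ) ^ 2 + (-1 : ℤ) * d * k)‖) := by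
      apply sum_le_sum_of_subset_of_nonneg (filter_subset _ _)
      intros; positivity
    refine (add_le_add h1 h5).trans ?_
    simp only [sum_add_distrib, sum_const, Nat.card_Ioc, nsmul_eq_mul] at h2 h3 ⊢
    have h6 : (((2 * D - D : ℕ) : ℕ) : ℝ) = D := by rw [show 2 * D - D = D by omega]
    rw [h6]
    have h7 : (D:ℝ) * 1 + D * (2 * (Q : ℝ) ^ 2) = D * (1 + 2 * (Q : ℝ) ^ 2) := by ring
    linarith
  calc ∑ i ∈ Ioc I0 I1, ∑ d ∈ (Ioc D (2 * D)).filter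
        (fun d => (c + (i : ℤ) ^ 2).toNat.Coprime d),
        |piAP x d (c + (i : ℤ) ^ 2).toNat - lis x / (Nat.totient d : ℝ)|
      ≤ ∑ i ∈ Ioc I0 I1, (6 * (x / L ^ W1) +
      ∑ d ∈ Ioc D (2 * D), ‖∑ k ∈ Ioc K1 K, ffz x Q (c + (i : ℤ) ^ 2 + (1 : ℤ) * d * k)‖ +
      ∑ d ∈ Ioc D (2 * D), ‖∑ k ∈ Ioc K1 K, ffz x Q (c + (i : ℤ) ^ 2 + (-1 : ℤ) * d * k)‖) :=
        sum_le_sum hper
    _ = J * (6 * (x / L ^ W1)) +
      ∑ i ∈ Ioc I0 I1, ∑ d ∈ Ioc D (2 * D),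
        ‖∑ k ∈ Ioc K1 K, ffz x Q (c + (i : ℤ) ^ 2 + (1 : ℤ) * d * k)‖ +
      ∑ i ∈ Ioc I0 I1, ∑ d ∈ Ioc D (2 * D),
        ‖∑ k ∈ Ioc K1 K, ffz x Q (c + (i : ℤ) ^ 2 + (-1 : ℤ) * d * k)‖ := by
        rw [sum_add_distrib, sum_add_distrib, sum_const, nsmul_eq_mul, hJ]
    _ ≤ (2 * s) * (6 * (x / L ^ W1)) + 2 * (x * s / L ^ W1) + 2 * (x * s / L ^ W1) := by
        gcongr
    _ = 16 * (x * s / L ^ W1) := by ring
    _ ≤ L * (x * s / L ^ W1) := by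
        have : 0 ≤ (x:ℝ) * s / L ^ W1 := by positivity
        nlinarith
    _ = (x : ℝ) ^ (3 / 2 : ℝ) / L ^ W := by rw [hW1, pow_succ, hx32]; field_simp

end Pool.Agent.Y312.SQ
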